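import Pool.Agent.U554.TD.Mot
import Pool.Agent.U554.TD.Cx

/-!
# Conjugates of Hodge classes, dimension by dimension, and the cubics `T(x, y, z) = 1`

Let `k = ℂ` and let `σ` be an automorphism of `ℂ`. Fix one of the two comparisons: algebraic de Rham
cohomology (Q1), or `ℓ`-adic cohomology for one prime `ℓ` (Q2).

* `𝓗` is the category of the mixed Hodge structures (rational, graded polarizable). `F M` and `F' M` are
  vector spaces: in Q1 `F M = M ⊗ ℂ ⊗_σ ℂ` and `F' M = M ⊗ ℂ`, in Q2 `F M = F' M = M ⊗ ℚ_ℓ`.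
* `𝓡` is an abelian category of systems of realizations (the mixed realizations of Jannsen, or the mixed
  motives of Nori): an object `M` has a Hodge structure `w M`, the Hodge structure `w' M` of the conjugate
  object, and an isomorphism `c : F (w M) ≅ F' (w' M)`, which for the cohomology of `X` is
  `H_dR(X) ⊗_σ ℂ = H_dR(X_σ)`, respectively `H_et(X, ℚ_ℓ) = H_et(X_σ, ℚ_ℓ)`, combined with the
  comparison isomorphisms of `X` and of `X_σ`. `one` is the unit object.
* A Hodge class in `M` is a morphism `v : w(one) ⟶ w(M)`. `Conj v v'` says that the Hodge class `v'` of the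
  conjugate object is the conjugate of `v`. `HodgeConj M`: each Hodge class `v` in `M` has a conjugate which
  is a Hodge class.
* `O b m X`, for the separated schemes `X` of finite type over `k`, is the system `H_{m + 2 b}(X)(-b)`
  (Borel-Moore homology); if `X` is smooth of pure dimension `n`, this is `H^{2 i - m}(X)(i)`, `i = n - b`.

So Q1 and Q2 say that `HodgeConj (O b 0 Y)` is true for all smooth projective `Y`, all `b` and all `σ` (and
all `ℓ`). Let `T` be a trilinear form in three blocks `x`, `y`, `z` of `a₁`, `a₂`, `a₃` variables.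

* `bilS T` is the closed subscheme `Z_T` of `𝔸^(a₂ + a₃)` given by the `a₁` bilinear equations
  `∂T/∂x_i (y, z) = 0`;
* `hypS T` is the smooth affine cubic hypersurface `Y_T : T(x, y, z) = 1` of dimension
  `n = a₁ + a₂ + a₃ - 1`; `O (n - j) 1 (hypS T)` is the system `H^{2 j - 1}(Y_T)(j)`.
-/

set_option autoImplicit false

open CategoryTheory AlgebraicGeometry MvPolynomial Pool.Agent.Y116.UV Pool.Agent.U554.TW Pool.Agent.U554.TD
  Pool.Agent.U483.GU

universe v u v' u' v'' u''

namespace Pool.Agent.Results.MP_e2e4f5_ag.CubicsByDimension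

section

variable {𝓡 : Type u} [Category.{v} 𝓡] [Abelian 𝓡] {𝓗 : Type u'} [Category.{v'} 𝓗] [Preadditive 𝓗]
  {𝓔 : Type u''} [Category.{v''} 𝓔] [Preadditive 𝓔]
  {w w' : 𝓡 ⥤ 𝓗} {F F' : 𝓗 ⥤ 𝓔} (c : w ⋙ F ≅ w' ⋙ F') (one : 𝓡)

/-- The Hodge class `v'` of the conjugate object is the conjugate of the Hodge class `v`. -/
def Conj {M : 𝓡} (v : w.obj one ⟶ w.obj M) (v' : w'.obj one ⟶ w'.obj M) : Prop :=
  F.map v ≫ c.hom.app M = c.hom.app one ≫ F'.map v'

/-- The conjugate of each Hodge class in `M` is a Hodge class. -/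
def HodgeConj (M : 𝓡) : Prop :=
  ∀ v : w.obj one ⟶ w.obj M, ∃ v' : w'.obj one ⟶ w'.obj M, Conj c one v v'

variable {k : Type} [Field k]

/-- The known properties of the systems `O b m X = H_{m + 2 b}(X)(-b)`: the properties `IsAbTheory` (long
exact sequences, homotopy invariance, ...) and

* `point`: `H_{m + 2 b}(pt) = 0` for `m + 2 b ≠ 0`, in some of these cases;
* `extreme`: if `dim X ≤ d`, then the Hodge classes in `H_{2 b}(X)(-b)` are algebraic, hence their conjugates
  are Hodge classes, for `b ≤ 0` and for `b ≥ d`;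
* `seq`: for a closed subscheme `Z` of `X` with complement `U`, the Hodge classes and the conjugate pairs of
  Hodge classes in `H_{2 b}(U)(-b)` lift to `H_{2 b}(X)(-b)`, and a Hodge class in `H_{2 b}(X)(-b)` which is zero
  on `U` comes from a Hodge class in `H_{2 b}(Z)(-b)` (these classes are in the part `W_0` of the lowest
  weight, which is an exact functor, and these pure Hodge structures and systems are semisimple, because
  they have polarizations, given by ample classes, which are compatible with the comparison);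
* `cover`: for each `X` there is a smooth projective `V`, `dim V ≤ dim X`, and a morphism
  `H_{2 b}(V)(-b) → H_{2 b}(X)(-b)` with image `W_0` (resolution of singularities), so that Hodge classes lift;
* `lefschetz`: the Hodge classes on smooth projective schemes of dimension at most three are algebraic, hence
  their conjugates are Hodge classes. -/
structure IsConjTheory (O : ℤ → ℤ → Sch k → 𝓡) : Prop extends IsAbTheory O where
  point : PointHom O
  extreme : ∀ (X : Sch k) (d : ℕ) (b : ℤ), FT True X → topologicalKrullDim X.left ≤ d →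
    (b ≤ 0 ∨ (d : ℤ) ≤ b) → HodgeConj c one (O b 0 X)
  seq : ∀ {Z X U : Sch k} (i : Z ⟶ X) (j : U ⟶ X), FT True X → IsTriple i j → ∀ b : ℤ,
    ∃ (α : O b 0 Z ⟶ O b 0 X) (β : O b 0 X ⟶ O b 0 U),
      (∀ y : w.obj one ⟶ w.obj (O b 0 U), ∃ x, x ≫ w.map β = y) ∧
      (∀ (y : w.obj one ⟶ w.obj (O b 0 U)) (y' : w'.obj one ⟶ w'.obj (O b 0 U)), Conj c one y y' →
        ∃ (x : w.obj one ⟶ w.obj (O b 0 X)) (x' : w'.obj one ⟶ w'.obj (O b 0 X)),
          Conj c one x x' ∧ x ≫ w.map β = y ∧ x' ≫ w'.map β = y') ∧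
      ∀ x : w.obj one ⟶ w.obj (O b 0 X), x ≫ w.map β = 0 → ∃ z, z ≫ w.map α = x
  cover : ∀ X : Sch k, FT True X → ∃ V : Sch k, SmoothProjective V ∧
    topologicalKrullDim V.left ≤ topologicalKrullDim X.left ∧
    ∀ b : ℤ, ∃ u : O b 0 V ⟶ O b 0 X, ∀ x : w.obj one ⟶ w.obj (O b 0 X),
      ∃ y, y ≫ w.map u = x
  lefschetz : ∀ (V : Sch k) (b : ℤ), SmoothProjective V → topologicalKrullDim V.left ≤ (3 : ℕ) →
    HodgeConj c one (O b 0 V)

variable {c one}

omit [Abelian 𝓡] [Preadditive 𝓗] [Preadditive 𝓔] in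
lemma Conj.comp {M N : 𝓡} {v : w.obj one ⟶ w.obj M} {v' : w'.obj one ⟶ w'.obj M}
    (h : Conj c one v v') (f : M ⟶ N) : Conj c one (v ≫ w.map f) (v' ≫ w'.map f) := by
  have h1 : F.map (w.map f) ≫ c.hom.app N = c.hom.app M ≫ F'.map (w'.map f) := c.hom.naturality f
  unfold Conj at h ⊢
  rw [F.map_comp, F'.map_comp, Category.assoc, h1, ← Category.assoc, h, Category.assoc]

omit [Abelian 𝓡] in
lemma Conj.add [F.Additive] [F'.Additive] {M : 𝓡} {v u : w.obj one ⟶ w.obj M}
    {v' u' : w'.obj one ⟶ w'.obj M} (h : Conj c one v v') (h' : Conj c one u u') :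
    Conj c one (v + u) (v' + u') := by
  unfold Conj at h h' ⊢
  rw [F.map_add, F'.map_add, Preadditive.add_comp, Preadditive.comp_add, h, h']

lemma inherited : Inherited (abRel 𝓡) (HodgeConj c one) := by
  rintro X Y ⟨r⟩ hY x
  obtain ⟨v', hv⟩ := hY (x ≫ w.map r.i)
  refine ⟨v' ≫ w'.map r.r, ?_⟩
  have h1 := hv.comp r.r
  rwa [Category.assoc, ← w.map_comp, r.retract, w.map_id, Category.comp_id] at h1

variable {O : ℤ → ℤ → Sch k → 𝓡}

lemma sided [F.Additive] [F'.Additive] (hO : IsConjTheory c one O) :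
    IsSidedTheory (HodgeConj c one) O where
  toIsAbTheory := hO.toIsAbTheory
  point := hO.point
  extreme := hO.extreme
  total := by
    intro Z X U i j hX ht b hZ hU x
    obtain ⟨α, β, h1, h2, h3⟩ := hO.seq i j hX ht b
    obtain ⟨y', hy'⟩ := hU (x ≫ w.map β)
    obtain ⟨g, g', hg, h4, h5⟩ := h2 _ _ hy'
    obtain ⟨z, hz⟩ := h3 (x - g) (by rw [Preadditive.sub_comp, h4, sub_self])
    obtain ⟨z', hz'⟩ := hZ z
    refine ⟨z' ≫ w'.map α + g', ?_⟩
    have h6 := (hz'.comp α).add hg
    rwa [hz, sub_add_cancel] at h6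
  opened := by
    intro Z X U i j hX ht b h y
    obtain ⟨α, β, h1, h2, h3⟩ := hO.seq i j hX ht b
    obtain ⟨x, rfl⟩ := h1 y
    obtain ⟨x', hx'⟩ := h x
    exact ⟨x' ≫ w'.map β, hx'.comp β⟩
  cover := by
    intro X hX
    obtain ⟨V, h1, h2, h3⟩ := hO.cover X hX
    refine ⟨V, h1, h2, fun b h x => ?_⟩
    obtain ⟨u, hu⟩ := h3 b
    obtain ⟨y, rfl⟩ := hu x
    obtain ⟨y', hy'⟩ := h y
    exact ⟨y' ≫ w'.map u, hy'.comp u⟩

end

/-- **Conjugates of Hodge classes, dimension by dimension.** Let `d ≥ 1` and let `s` be any number. For each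
comparison (de Rham and `σ`, or `ℓ` and `σ`) the following are equivalent, and all hold for `d ≤ 3`:

1. (`d ≤ 3`, or) the conjugates of all Hodge classes on all smooth projective `V` of dimension at most `d` are
   Hodge classes;
2. the conjugates of all Hodge classes in `H_{2 b}(X)(-b)` are Hodge classes, for all `b` and all separated
   schemes `X` of finite type of dimension at most `d`;
3. the same for all `Z_T` such that the number of the equations or of the variables `y` or of the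
   variables `z` is at most `d + 2`, and for all closed subschemes of affine spaces which are given by
   equations with `t_1, …, t_c` terms, `∑ max(t_i - 2, 0) ≤ d`;
4. the conjugates of all Hodge classes in `H^{2 j - 1}(Y_T)(j)` are Hodge classes, for all `j ≥ 1` and all
   `T` with a block of at most `d + 2` variables;
5. the same for all `T` with exactly `d + 2` variables `y` and all `j ≥ 1` with `j ≥ s`. -/
theorem result {𝓡 : Type u} [Category.{v} 𝓡] [Abelian 𝓡] {𝓗 : Type u'} [Category.{v'} 𝓗]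
    [Preadditive 𝓗] {𝓔 : Type u''} [Category.{v''} 𝓔] [Preadditive 𝓔] {w w' : 𝓡 ⥤ 𝓗} {F F' : 𝓗 ⥤ 𝓔}
    [F.Additive] [F'.Additive] (c : w ⋙ F ≅ w' ⋙ F') (one : 𝓡) {k : Type} [Field k] [CharZero k]
    (O : ℤ → ℤ → Sch k → 𝓡) (hO : IsConjTheory c one O) (d : ℕ) (hd : 1 ≤ d) (s : ℕ) :
    List.TFAE [
      d ≤ 3 ∨ ∀ V : Sch k, SmoothProjective V → topologicalKrullDim V.left ≤ d →
        ∀ b : ℤ, HodgeConj c one (O b 0 V),
      ∀ X : Sch k, FT True X → topologicalKrullDim X.left ≤ d →
        ∀ b : ℤ, HodgeConj c one (O b 0 X),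
      (∀ (a₁ a₂ a₃ : ℕ) (T : Fin a₁ → Fin a₂ → Fin a₃ → k), OneBlock (d + 2) a₁ a₂ a₃ →
        ∀ b : ℤ, HodgeConj c one (O b 0 (bilS T))) ∧
      ∀ (n : ℕ) (G : Finset (MvPolynomial (Fin n) k)), ∑ g ∈ G, (g.support.card - 2) ≤ d →
        ∀ b : ℤ, HodgeConj c one (O b 0
          (aff k (MvPolynomial (Fin n) k ⧸ Ideal.span (G : Set (MvPolynomial (Fin n) k))))),
      ∀ (a₁ a₂ a₃ : ℕ) (T : Fin a₁ → Fin a₂ → Fin a₃ → k), OneBlock (d + 2) a₁ a₂ a₃ →
        ∀ j : ℕ, 1 ≤ j → HodgeConj c one (O (a₁ + a₂ + a₃ - 1 - j) 1 (hypS T)),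
      ∀ (a₁ a₃ : ℕ) (T : Fin a₁ → Fin (d + 2) → Fin a₃ → k), ∀ j : ℕ, s ≤ j → 1 ≤ j →
        HodgeConj c one (O (a₁ + (d + 2) + a₃ - 1 - j) 1 (hypS T))] := by
  have h := mot_tfae inherited (sided hO) 3 (fun V hV hdim b => hO.lefschetz V b hV hdim) d hd s
  tfae_have 1 ↔ 2 := h.out 0 1
  tfae_have 2 → 3 := by
    intro h1
    refine ⟨(h.out 1 2).mp h1, fun n G hG =>
      complexity (sided_ab inherited (sided hO)) d (fun A _ _ _ hA => ?_) G hG⟩
    refine h1 _ (ft_aff True) ?_
    rw [Pool.Agent.Z125.UN.topDim_aff]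
    exact hA
  tfae_have 3 → 4 := fun h1 => (h.out 2 3).mp h1.1
  tfae_have 4 → 2 := fun h1 => (h.out 3 1).mp h1
  tfae_have 4 ↔ 5 := h.out 3 4
  tfae_finish

end Pool.Agent.Results.MP_e2e4f5_ag.CubicsByDimension
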