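import Pool.Agent.U228.AH.Main2

/-!
# The absolute Hodge conjecture for the powers of a variety is decided on one explicit power

Let `X` be a smooth projective complex variety of dimension `d`, let `t` be its transcendental
Betti number: the dimension of `H(X, ℚ)` minus the dimension of the space spanned by the Hodge
classes of `X`, and let `N = max(4, (d t) ^ t)`.

Let `σ` be an automorphism of `ℂ`, and consider ONE comparison isomorphism `C` between
`X ↦ H(X, ℚ)` and `X ↦ H(X^σ, ℚ)`: the one given by de Rham cohomology (Q1), or the one given by
`ℓ`-adic cohomology for one prime number `ℓ` (Q2). Then one of the following two statements is true,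
and the power `X ^ N` decides which one:

* the conjugates of all Hodge classes on all powers of `X` are Hodge classes;
* asymptotically at most one half of the linearly independent Hodge classes on `X ^ n` have Hodge
  classes as conjugates.
-/

open CategoryTheory AlgebraicGeometry

universe u

namespace Pool.Agent.Results.MP_e2e4f5_ag.DecidedOnOnePower

open Pool.Agent.H914 Pool.Agent.H914.VarClass Pool.Agent.H914.VarClass.Obj
  Pool.Agent.H914.WeilCohomology Pool.Agent.Y121.AHS Pool.Agent.N996.FP
open Pool.Agent.Y133.Half (pw AtMostHalf)
open Pool.Agent.U228.AH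

variable {k : Type u} [Field k] {𝒱 : VarClass k} {ops : CycleOps 𝒱}

/-- **All or at most one half, decided on one power.** -/
theorem result (T T' : HodgeTheory ops) (L : Type) [Field L] [Algebra T.W.K L] [Algebra T'.W.K L]
    (hL : Nonempty (L →+* ℂ)) (C : Comparison T.W T'.W L) (X : 𝒱.Obj) (ψ : RForm T.W X)
    (hψ : IsPolarisation T X ψ) (t N : ℕ) (ht : t = transBetti T X)
    (hN : N = max 4 ((X.dim * t) ^ t)) :
    (HodgePreserved C (pw X (N - 1)) → ∀ n, HodgePreserved C (pw X n)) ∧
    (¬ HodgePreserved C (pw X (N - 1)) →
      AtMostHalf (fun n => presDim C (pw X n)) fun n => hodgeDim T (pw X n)) := by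
  subst ht
  exact ⟨fun h => pres_pw hL hψ (Or.inr (Or.inr hN)) h, fun h => half hL h⟩

end Pool.Agent.Results.MP_e2e4f5_ag.DecidedOnOnePower
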