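import Pool.Agent.U222.AC.CFin

/-!
# Conjugates of Hodge classes on the products of coverings of large prime degrees with all varieties

Let `X_0, …, X_n` be smooth projective equivariant models (toroidal resolutions) of the cyclic
coverings

  `w ^ N_i = l_1 (x) ⋯ l_(a_i) (x)`

of the projective spaces of dimensions `d_i`, where `a_i ≥ 2`, the `N_i` are **different prime numbers**
and `l_1, …, l_(a_i)` are polynomials of degree one in `d_i` variables in general position (also with
respect to the hyperplane at infinity, along which the covering is branched, too). For `d_i = 1` these are
the curves `y ^ N = f (x)`, where `f` is any polynomial of degree `a` without multiple roots. The varieties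
`X_i` form families with `d_i (a_i - d_i - 1)` moduli; they are of general type or Calabi-Yau varieties for
large `a_i`, and not of CM type in general. The classes invariant under the covering group are algebraic.
The eigenspaces for the nontrivial characters are in degree `d` and have dimension
`binomial (a - 1, d)`; for `0 < j < N / a` the eigenspace for `χ ^ j`, where `χ` is a suitable generator, is of
type `(d, 0)` and the one for `χ ^ (-j)` of type `(0, d)` (Deligne, Esnault and Viehweg). These are the
properties that are used (`IsCyclicCovering`).

Let `M ≥ 1` and `b ≥ 0` be integers with `d_i ≥ M` and

  `N_i > a_i ^ 2 b + a_i` for all `i` (`AreCoverings`).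

Let `σ` be ONE automorphism of the field of complex numbers, and fix ONE comparison isomorphism `C`,
either the de Rham one or the `ℓ`-adic one for one prime `ℓ`. A Hodge class `v` on `Y` is **conjugable** for `(σ, C)` if
`(v^C)_σ` is the image of a Hodge class of `Y_σ` under the comparison isomorphism (`IsConjugable`). The
questions Q1 and Q2 ask if all Hodge classes are conjugable (`HodgeAreConjugable`).

**Theorem.** Let `X = X_0 × ⋯ × X_n`, and let `Z` be **any** smooth projective variety with

  `∑_{p + q = d, q - p ≥ M} h^(p,q)(Z) ≤ b` for all `d`,

for instance any `Z` with Betti numbers at most `2 b`, or (with `b = 0`) any `Z` of dimension smaller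
than `M` (`IsSmall`). Then (`Conclusions`):

* the conjugable Hodge classes on `X × Z` are the linear combinations of products of classes of algebraic cycles
  on `X` and of conjugable Hodge classes on `Z`;
* **the statement of Q1 (of Q2 for the prime `ℓ`) holds for `X × Z` and `σ` if and only if it holds for `Z`
  and `σ`**;
* **it holds for `X × Z` for all curves `Z`, and for all surfaces and threefolds `Z`** (by the theorem of Lefschetz on
  the classes of type `(1, 1)` on `Z`).

It holds for `X`. By the theorem of Deligne it holds for all abelian varieties `Z`, and so for all products `X × Z`
with an abelian variety `Z` (with the inequality); for `d_i ≥ 2` the motives of the varieties `X_i` are not known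
to be in the category generated by the motives of abelian varieties.

It is a statement for each `σ` and each comparison isomorphism separately, with no relation between the
classes `v_σ` for different comparison isomorphisms, as in the problem. The conjugate varieties
enter only through `C`: a semilinear isomorphism between the cohomology theories `Y ↦ H(Y)` (with the Hodge structure, `T`) and
`Y ↦ H(Y_σ)` (`T'`) with coefficients extended to `L` (`L = ℂ` for de Rham cohomology and `L = ℚ_ℓ` in the `ℓ`-adic case),
compatible with products, pull-backs, traces and cycle classes (`Comparison`, starting files).

The varieties `X_i` enter only through the following properties (`AreCoverings`, `IsCyclicCovering`): `X_i` has an automorphism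
`t_i` with `t_i ^ N_i = 1`, the `N_i` are different primes, the invariant classes in `H(X_i, ℚ)` are algebraic,
the eigenvectors of `t_i^*` in `H(X_i, ℂ)` with eigenvalues different from `1` are sums of classes of
types `(p, q)` with `-d_i ≤ p - q ≤ d_i`, and there is a root of unity `z ≠ 1` of order `N_i` such that the
eigenvectors with the eigenvalues `z ^ j`, `0 < j < N_i / a_i`, are of types `p - q ≥ d_i` (of type `(d_i, 0)`), and those with the
eigenvalues `z ^ (-j)` of types `p - q ≤ -d_i`. There is no other condition on `Z`: it may have complex
multiplication, or be isogenous to a quotient of other coverings.

In the intended use `k = ℂ`, `𝒱` is the class of all smooth projective varieties and `T` is the Hodge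
theory `Y ↦ H(Y, ℚ)`, with its cycle classes, pull-backs and push-forwards, Kunneth formula and
Hodge decomposition; only such properties are used (`HodgeTheory`, starting files).

The proof. Let `c` be a Hodge class on `X × Z`, and `c_χ` its component for the
character `χ ≠ 1` of the group `G` generated by the `t_i`. For `τ` in `Aut (ℂ)` the conjugate of `c_χ` is the component for the
character `τ χ`. The coefficients of `c_{τ χ}` in `H(Z, ℂ)` (its contractions with all
linear forms on `H(X, ℂ)`) form a subspace `U_τ = τ (U_1)` which is spanned by classes of pure types.
Let `P` be the projection of `H(Z, ℂ)` to the types with `p - q < 0`. If `ρ τ χ` has types `p - q > 0`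
then `ρ⁻¹ P ρ` is the identity on `U_τ`, if it has types `p - q < 0` then `ρ⁻¹ P ρ` is zero on `U_τ`. So
for pairwise separated conjugates products of such operators show that the sum of the `b + 1` spaces
`U_τ` is direct. They are contained in the part of `H(Z, ℂ)` of types `q - p ≥ M`, of dimension at
most `b`. So `c_χ = 0`, and `c` is a combination of products of algebraic classes on `X` and Hodge classes on `Z`
(this part is in `Pool.Agent.U222.HD`, and gives the Hodge conjecture for `X` and its consequences, see the
sibling on products of coverings with arbitrary varieties for the Hodge conjecture). For the conjugable
classes let `(d_t)` and `(e_t)` be dual bases of the space of the algebraic classes on `X` for the cup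
product, which is nondegenerate there since homological and numerical equivalence agree on `X` by the Hodge
conjecture for `X` and the polarisation. Then `c = ∑ e_t × q_* (d_t · c)`, and `q_* (d_t · c)` is conjugable if `c` is,
since the conjugable classes are stable under products, pull-backs and push-forwards.

helper222.
-/

set_option autoImplicit false

open CategoryTheory AlgebraicGeometry

universe u

namespace Pool.Agent.Results.MP_e2e4f5_ag.LargePrimeCoverings

open Pool.Agent.H914 Pool.Agent.H914.VarClass Pool.Agent.H914.VarClass.Obj Pool.Agent.Y121.AHS
open Pool.Agent.U222.AC (prodOf AreCoverings IsSmall)
open Pool.Agent.U222.AC.Con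

/-- **Conjugates of Hodge classes on the products of coverings of large prime degrees with arbitrary
varieties, for one automorphism and one comparison isomorphism.** -/
theorem result {k : Type u} [Field k] {𝒱 : VarClass k} {ops : CycleOps 𝒱}
    -- the cohomology of the varieties and of their conjugates, and the comparison isomorphism
    (T T' : HodgeTheory ops) {L : Type} [Field L] [Algebra T.W.K L] [Algebra T'.W.K L]
    (C : Comparison T.W T'.W L)
    -- the varieties `X_0, …, X_n` with automorphisms `t_i` of orders `N_i`
    {n : ℕ} (X : Fin (n + 1) → 𝒱.Obj) (t : ∀ i, End (X i)) (N d a : Fin (n + 1) → ℕ)
    (M : ℤ) (b : ℕ) (hM : 0 < M) (h : AreCoverings T X t N d a M b) :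
    HodgeAreConjugable C (prodOf n X) ∧
      ∀ Z : 𝒱.Obj, IsSmall T M b Z → Conclusions C (prodOf n X) Z :=
  conj_fin T T' C X t N d a M b hM h

end Pool.Agent.Results.MP_e2e4f5_ag.LargePrimeCoverings
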